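import Pool.Agent.Y89.TS.Stm2

/-!
# Project TW (one class suffices, every rank): parts

`Clf`, `mono`, `InD` are defined in `TS/Stm2`. The monomials satisfy `S_mono` (proved:
`Pool.Agent.Y259.TS.t_mono`).
-/

open Matrix Finset

namespace Pool.Agent.Y89.TW

noncomputable section

open Pool.Agent.Y89.KS (der)
open Pool.Agent.Y89.TS (Clf InD mono)

/-- the products of two generators -/
def prs {N : Type} [Fintype N] [DecidableEq N] {n : ℕ} (Γ : Fin n → Matrix N N ℂ) :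
    Set (Matrix N N ℂ) := {z | ∃ i j, i ≠ j ∧ z = Γ i * Γ j}

/-- Lie algebras between the spin Lie algebra and the skew elements -/
structure Btw {N : Type} [Fintype N] [DecidableEq N] {n : ℕ} (Γ : Fin n → Matrix N N ℂ)
    (τ : Matrix N N ℂ →ₗ[ℂ] Matrix N N ℂ) (L : Submodule ℂ (Matrix N N ℂ)) : Prop where
  anti : ∀ a b, τ (a * b) = τ b * τ a
  two : ∀ i j, i ≠ j → τ (Γ i * Γ j) = -(Γ i * Γ j)
  br : ∀ a ∈ L, ∀ b ∈ L, a * b - b * a ∈ L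
  pr : ∀ i j, i ≠ j → Γ i * Γ j ∈ L
  sk : ∀ a ∈ L, τ a = -a
  cm : ∀ a ∈ L, ∀ d, InD Γ d → a * d = d * a

/-- (MAX3) -/
def S_max3 : Prop := ∀ (N : Type) [Fintype N] [DecidableEq N] (n : ℕ)
  (Γ : Fin n → Matrix N N ℂ), Clf Γ → n % 4 = 3 → 7 ≤ n →
  ∀ (τ : Matrix N N ℂ →ₗ[ℂ] Matrix N N ℂ) (L : Submodule ℂ (Matrix N N ℂ)), Btw Γ τ L →
  (∀ a ∈ L, a ∈ Submodule.span ℂ (prs Γ)) ∨
    ∀ s : Finset (Fin n), s.card = n - 1 → mono Γ s ∈ L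

/-- (MAX0) -/
def S_max0 : Prop := ∀ (N : Type) [Fintype N] [DecidableEq N] (n : ℕ)
  (Γ : Fin n → Matrix N N ℂ), Clf Γ → n % 4 = 0 → 8 ≤ n →
  ∀ (τ : Matrix N N ℂ →ₗ[ℂ] Matrix N N ℂ) (L : Submodule ℂ (Matrix N N ℂ)), Btw Γ τ L →
  (∀ a ∈ L, a ∈ Submodule.span ℂ (prs Γ)) ∨
    ∀ s : Finset (Fin n), s.card = n - 2 → mono Γ s ∈ L

/-- (MAX2) -/
def S_max2 : Prop := ∀ (N : Type) [Fintype N] [DecidableEq N] (n : ℕ)
  (Γ : Fin n → Matrix N N ℂ), Clf Γ → n % 4 = 2 → 6 ≤ n →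
  ∀ (τ : Matrix N N ℂ →ₗ[ℂ] Matrix N N ℂ) (L : Submodule ℂ (Matrix N N ℂ)), Btw Γ τ L →
  (∀ a ∈ L, a ∈ Submodule.span ℂ (prs Γ ∪ {mono Γ univ})) ∨
    (10 ≤ n ∧ ∀ s : Finset (Fin n), s.card % 4 = 2 → s.card < n → mono Γ s ∈ L)

/-- (INV4) tensors of degree four killed by the monomials of degree `2` and `6` -/
def S_inv4 : Prop := ∀ (N : Type) [Fintype N] [DecidableEq N] (n : ℕ)
  (Γ : Fin n → Matrix N N ℂ), Clf Γ → n % 4 = 2 → 10 ≤ n → ∀ f : (Fin 4 → N) → ℂ,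
  (∀ s : Finset (Fin n), s.card = 2 ∨ s.card = 6 → der (mono Γ s) f = 0) →
  der (mono Γ univ) f = 0

/-- (CEN) the centre of the even part, and elements `Z Γ_k`, `Z Γ_i Γ_j` of it -/
def S_cen : Prop := ∀ (N : Type) [Fintype N] [DecidableEq N] (n : ℕ)
  (Γ : Fin n → Matrix N N ℂ), Clf Γ → 3 ≤ n → ∀ Z : Matrix N N ℂ, InD Γ Z →
  ((∀ d, InD Γ d → Z * d = d * Z) →
    Z ∈ Submodule.span ℂ {z | z = 1 ∨ (Even n ∧ z = mono Γ univ)}) ∧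
  (∀ k, Odd n → (∀ i, Z * Γ i = Γ i * Z) → (∀ d, InD Γ d → Z * Γ k * d = d * (Z * Γ k)) →
    Z * Γ k ∈ Submodule.span ℂ {z | z = mono Γ (univ.erase k)})

end

end Pool.Agent.Y89.TW
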