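import Pool.Agent.Y89.TU.Stm

/-!
# Project TW: tensors of degree four and the centre
-/

open Matrix Finset

namespace Pool.Agent.Y89.TW

noncomputable section

open Pool.Agent.Y89.KS (der)
open Pool.Agent.Y89.TS (act)

/-- (WT4) -/
def S_wt4 : Prop := ∀ (N : Type) [Fintype N] [DecidableEq N] (Om : Matrix N N ℂ), Om * Om = -1 →
  ∀ α β : ℂ, α * α + β * β = 1 → ∀ f : (Fin 4 → N) → ℂ, act (α • 1 + β • Om)ᵀ f = f →
  der Om f ≠ 0 → (α + Complex.I * β) ^ 4 = 1

end

end Pool.Agent.Y89.TW
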