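import Pool.Agent.Y89.TX.Main5
import Pool.Agent.Y89.TW.Stm
import Pool.Agent.Y89.TW.Stm2
import Pool.Agent.Y37.TW.MAX23
import Pool.Agent.Y983.TW.MAX0
import Pool.Agent.Y936.TW.CEN
import Pool.Agent.Y949.TW.Inv4

/-!
# Zero-one law, every rank: the Lie algebra of the symmetries
-/

open Matrix Finset Function

set_option linter.unusedSectionVars false

namespace Pool.Agent.Y89.TW

noncomputable section

open Pool.Agent.W544.PG (HS HW mC cspan cx)
open Pool.Agent.Y89.KS
open Pool.Agent.Y89.TS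
open Pool.Agent.Y89.TU (gm gm_U sp_span skew_g0)
open Pool.Agent.Y89.TX (vol isMon vol_comm vol_dg Cen InD_of_y)

section
variable {n w k : ℕ} {V : HS n} {W : HW w} {Γ : Fin n → Matrix (Fin w) (Fin w) ℚ}
  {c : ℚ} {U U' : Matrix (Fin n) (Fin n) ℂ} {B : ∀ k : ℕ, Submodule ℚ ((Fin k → Fin w) → ℚ)}

theorem btw (hV : (V.x * V.x).trace = 2) (hS : V.Scalar) (h : Cliff V W Γ c) (hB : CyclesW W B)
    (hH : ∀ k : ℕ, ∀ t ∈ B k, HodgeW W t) (hU : Uᵀ * ((c : ℂ) • mC V.Q) * U = 1)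
    (hUU : U * U' = 1) : Btw (ga Γ U) (dgL W) (LB B) where
  anti := dg_mul W
  two := fun _ _ hij => ga_dg hV hS h hU hij
  br := LB_br
  pr := fun _ _ hij => ga_mem hV hS h hH hU hij
  sk := fun _ ha => dg_of_skew W (LB_skew hB ha)
  cm := fun _ ha _ hd => LB_comm hB ha (inD_DD h hU hUU hd)

/-- rank three modulo four -/
theorem spin3 (hV : (V.x * V.x).trace = 2) (hS : V.Scalar) (h : Cliff V W Γ c)
    (hB : CyclesW W B) (hH : ∀ k : ℕ, ∀ t ∈ B k, HodgeW W t)
    (hU : Uᵀ * ((c : ℂ) • mC V.Q) * U = 1) (hUU : U * U' = 1) (h3 : n % 4 = 3) (h7 : 7 ≤ n)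
    {f : (Fin k → Fin w) → ℚ} (hf : f ∈ B k) {Z : Matrix (Fin w) (Fin w) ℂ}
    (hZ : ∀ j, Z * mC (Γ j) = mC (Γ j) * Z)
    (hD : ∀ j, ∀ D : Matrix (Fin w) (Fin w) ℚ, mC D * W.y = W.y * mC D →
      Z * mC (Γ j) * mC D = mC D * (Z * mC (Γ j))) {i : Fin n}
    (hne : der (Z * mC (Γ i)) (cx f) ≠ 0) :
    ∀ a ∈ LB B, a ∈ Submodule.span ℂ (prs (ga Γ U)) := by
  have hγ := ga_clf h hU
  rcases Pool.Agent.Y37.TW.t_max3 (Fin w) n (ga Γ U) hγ h3 h7 (dgL W) (LB B)
    (btw hV hS h hB hH hU hUU) with h1 | h1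
  · exact h1
  · exfalso
    have hodd : Odd n := by
      rw [Nat.odd_iff]
      omega
    have z1 : ∀ a, Z * ga Γ U a = ga Γ U a * Z := by
      intro a
      rw [ga_apply, Finset.mul_sum, Finset.sum_mul]
      refine Finset.sum_congr rfl fun j _ => ?_
      rw [Matrix.mul_smul, Matrix.smul_mul, hZ]
    have z2 : InD (ga Γ U) Z := by
      intro a b
      rw [← Matrix.mul_assoc, z1, Matrix.mul_assoc, z1, Matrix.mul_assoc]
    have z3 : ∀ a, ∀ d, InD (ga Γ U) d → Z * ga Γ U a * d = d * (Z * ga Γ U a) := by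
      intro a d hd
      refine comm_of_rat (fun D hD' => ?_) (inD_DD h hU hUU hd)
      rw [ga_apply, Finset.mul_sum, Finset.sum_mul, Finset.mul_sum]
      refine Finset.sum_congr rfl fun j _ => ?_
      rw [Matrix.mul_smul, Matrix.smul_mul, hD j D hD', Matrix.mul_smul]
    have z4 : ∀ a, Z * ga Γ U a ∈ LB B := by
      intro a
      have h5 := (Pool.Agent.Y936.TW.t_cen (Fin w) n (ga Γ U) hγ (by omega) Z z2).2 a hodd z1
        (z3 a)
      refine Submodule.span_le.2 ?_ h5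
      rintro z rfl
      refine h1 _ ?_
      rw [Finset.card_erase_of_mem (Finset.mem_univ a), Finset.card_univ, Fintype.card_fin]
    apply hne
    have h5 : Z * mC (Γ i) ∈ LB B := by
      rw [gen_ga hUU i, Finset.mul_sum]
      refine Submodule.sum_mem _ fun a _ => ?_
      rw [Matrix.mul_smul]
      exact Submodule.smul_mem _ _ (z4 a)
    exact h5 k f hf

/-- central elements -/
theorem cen_vol (hV : (V.x * V.x).trace = 2) (hS : V.Scalar) (h : Cliff V W Γ c)
    (hU : Uᵀ * ((c : ℂ) • mC V.Q) * U = 1) (hUU : U * U' = 1) (h3 : 3 ≤ n)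
    {Z : Matrix (Fin w) (Fin w) ℂ} (hZ : ∀ σ : ℂ ≃+* ℂ, Z * W.y.map σ = W.y.map σ * Z)
    (hD : ∀ D : Matrix (Fin w) (Fin w) ℚ, mC D * W.y = W.y * mC D → Z * mC D = mC D * Z) :
    ∃ a b : ℂ, Z = a • 1 + b • vol Γ U := by
  have h1 := (Pool.Agent.Y936.TW.t_cen (Fin w) n (ga Γ U) (ga_clf h hU) h3 Z
    (InD_of_y hV hS h hU hZ)).1 fun d hd => comm_of_rat hD (inD_DD h hU hUU hd)
  clear hZ hD
  induction h1 using Submodule.span_induction with
  | mem z hz =>
    rcases hz with rfl | ⟨-, rfl⟩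
    · exact ⟨1, 0, by simp⟩
    · exact ⟨0, 1, by simp⟩
  | zero => exact ⟨0, 0, by simp⟩
  | add x y _ _ hx hy =>
    obtain ⟨a, b, rfl⟩ := hx
    obtain ⟨a', b', rfl⟩ := hy
    exact ⟨a + a', b + b', by module⟩
  | smul t x _ hx =>
    obtain ⟨a, b, rfl⟩ := hx
    exact ⟨t * a, t * b, by module⟩

/-- rank divisible by four -/
theorem spin0 (hV : (V.x * V.x).trace = 2) (hS : V.Scalar) (h : Cliff V W Γ c)
    (hB : CyclesW W B) (hH : ∀ k : ℕ, ∀ t ∈ B k, HodgeW W t)
    (hU : Uᵀ * ((c : ℂ) • mC V.Q) * U = 1) (hUU : U * U' = 1) (h0 : n % 4 = 0) (h8 : 8 ≤ n)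
    {f : (Fin k → Fin w) → ℚ} (hf : f ∈ B k) {Z : Matrix (Fin w) (Fin w) ℂ}
    (hZ : ∀ σ : ℂ ≃+* ℂ, Z * W.y.map σ = W.y.map σ * Z)
    (hD : ∀ D : Matrix (Fin w) (Fin w) ℚ, mC D * W.y = W.y * mC D → Z * mC D = mC D * Z)
    {x : Matrix (Fin n) (Fin n) ℂ} (hx : xᵀ * mC V.Q + mC V.Q * x = 0)
    (hne : der (Z * sp V Γ c x) (cx f) ≠ 0) :
    ∀ a ∈ LB B, a ∈ Submodule.span ℂ (prs (ga Γ U)) := by
  have hγ := ga_clf h hU
  have hM := isMon hγ
  rcases Pool.Agent.Y983.TW.t_max0 (Fin w) n (ga Γ U) hγ h0 h8 (dgL W) (LB B)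
    (btw hV hS h hB hH hU hUU) with h1 | h1
  · exact h1
  · exfalso
    obtain ⟨a, b, hab⟩ := cen_vol hV hS h hU hUU (by omega) hZ hD
    have h2 : sp V Γ c x ∈ LB B := sp_LB h hH x (skew_g0 hV hS hx)
    have h3 : vol Γ U * sp V Γ c x ∈ LB B := by
      have h4 := sp_span h hU hUU hx
      generalize sp V Γ c x = s at h4
      induction h4 using Submodule.span_induction with
      | mem s hs =>
        obtain ⟨i, j, hij, rfl⟩ := hs
        have h5 : vol Γ U * mono (ga Γ U) {i, j} ∈ LB B := by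
          have hc : (symmDiff (univ : Finset (Fin n)) {i, j}).card = n - 2 := by
            have e1 : symmDiff (univ : Finset (Fin n)) {i, j} = univ \ {i, j} := by
              ext t
              simp [Finset.mem_symmDiff]
            rw [e1, Finset.card_sdiff_of_subset (Finset.subset_univ _), Finset.card_univ,
              Fintype.card_fin, Finset.card_pair hij]
          rcases hM.mul univ {i, j} with h6 | h6
          · change mono (ga Γ U) univ * mono (ga Γ U) {i, j} ∈ LB B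
            rw [h6]
            exact h1 _ hc
          · change mono (ga Γ U) univ * mono (ga Γ U) {i, j} ∈ LB B
            rw [h6]
            exact Submodule.neg_mem _ (h1 _ hc)
        rcases hM.pair hij with h6 | h6
        · rw [h6]
          exact h5
        · rw [h6, Matrix.mul_neg]
          exact Submodule.neg_mem _ h5
      | zero =>
        rw [Matrix.mul_zero]
        exact Submodule.zero_mem _
      | add s t _ _ hs ht =>
        rw [Matrix.mul_add]
        exact Submodule.add_mem _ hs ht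
      | smul r s _ hs =>
        rw [Matrix.mul_smul]
        exact Submodule.smul_mem _ _ hs
    apply hne
    have h6 : Z * sp V Γ c x ∈ LB B := by
      rw [hab, Matrix.add_mul, Matrix.smul_mul, Matrix.smul_mul, Matrix.one_mul]
      exact Submodule.add_mem _ (Submodule.smul_mem _ _ h2) (Submodule.smul_mem _ _ h3)
    exact h6 k f hf

/-- rank two modulo four -/
theorem spin2 (hV : (V.x * V.x).trace = 2) (hS : V.Scalar) (h : Cliff V W Γ c)
    (hB : CyclesW W B) (hH : ∀ k : ℕ, ∀ t ∈ B k, HodgeW W t)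
    (hU : Uᵀ * ((c : ℂ) • mC V.Q) * U = 1) (hUU : U * U' = 1) (h2 : n % 4 = 2) (h6 : 6 ≤ n)
    {f : (Fin 4 → Fin w) → ℚ} (hf : f ∈ B 4) {Z : Matrix (Fin w) (Fin w) ℂ} (hZ : Cen W Z)
    (hne : der Z (cx f) ≠ 0) :
    der (vol Γ U) (cx f) ≠ 0 ∧ ∀ a ∈ LB B, a ∈ Submodule.span ℂ (prs (ga Γ U)) := by
  have hγ := ga_clf h hU
  have hn2 : Even n := by
    rw [Nat.even_iff]
    omega
  obtain ⟨hv1, hv2⟩ := vol_dg hn2 (by omega) hV hS h hU
  have h8 : Odd (n / 2) := by
    rw [Nat.odd_iff]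
    omega
  rw [h8.neg_one_pow, neg_one_smul] at hv1
  have hne' : der (vol Γ U) (cx f) ≠ 0 := by
    obtain ⟨a, b, hab⟩ := cen_vol hV hS h hU hUU (by omega) hZ.1 hZ.2.1
    have h3 : dg W Z = -Z := dg_of_skew W hZ.2.2
    have h4 : dg W Z = a • 1 - b • vol Γ U := by
      change dgL W Z = _
      rw [hab, map_add, map_smul, map_smul]
      have e1 : dgL W 1 = 1 := by
        change (mC W.E)⁻¹ * 1ᵀ * mC W.E = 1
        rw [Matrix.transpose_one, Matrix.mul_one, Einv']
      have e2 : dgL W (vol Γ U) = -vol Γ U := hv1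
      rw [e1, e2, smul_neg, sub_eq_add_neg]
    have h5 : a = 0 := by
      rw [h3, hab] at h4
      have h7 : (2 * a) • (1 : Matrix (Fin w) (Fin w) ℂ) = 0 := by
        have h9 : (2 * a) • (1 : Matrix (Fin w) (Fin w) ℂ) =
            (a • 1 - b • vol Γ U) - (-(a • 1 + b • vol Γ U)) := by module
        rw [h9, h4, sub_self]
      have h10 := congrFun (congrFun h7 ⟨0, h.pos⟩) ⟨0, h.pos⟩
      simp only [Matrix.smul_apply, Matrix.one_apply_eq, smul_eq_mul, mul_one,
        Matrix.zero_apply] at h10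
      exact (mul_eq_zero.1 h10).resolve_left two_ne_zero
    intro h7
    apply hne
    rw [hab, h5, zero_smul, zero_add, der_smul, h7, smul_zero]
  refine ⟨hne', ?_⟩
  rcases Pool.Agent.Y37.TW.t_max2 (Fin w) n (ga Γ U) hγ h2 h6 (dgL W) (LB B)
    (btw hV hS h hB hH hU hUU) with h1 | ⟨h10, h1⟩
  · intro a ha
    have h3 := h1 a ha
    rw [Submodule.span_union, Submodule.mem_sup] at h3
    obtain ⟨p, hp, q, hq, rfl⟩ := h3
    obtain ⟨t, rfl⟩ := Submodule.mem_span_singleton.1 hq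
    have hpL : p ∈ LB B := by
      refine Submodule.span_le.2 ?_ hp
      rintro z ⟨i, j, hij, rfl⟩
      exact ga_mem hV hS h hH hU hij
    have h4 : t • mono (ga Γ U) univ ∈ LB B := by
      have := Submodule.sub_mem _ ha hpL
      rwa [add_sub_cancel_left] at this
    have h5 := h4 4 f hf
    rw [der_smul] at h5
    rcases smul_eq_zero.1 h5 with h7 | h7
    · rw [h7, zero_smul, add_zero]
      exact hp
    · exact absurd h7 hne'
  · exfalso
    apply hne'
    refine Pool.Agent.Y949.TW.t_inv4 (Fin w) n (ga Γ U) hγ h2 h10 (cx f) fun s hs => ?_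
    refine h1 s ?_ ?_ 4 f hf
    · rcases hs with hs | hs <;> rw [hs]
    · rcases hs with hs | hs <;> omega

end

end

end Pool.Agent.Y89.TW
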