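import Pool.Agent.Y89.TW.Theta

/-!
# Zero-one law for the powers of a Kuga-Satake variety, every rank: main theorem
-/

open Matrix Finset Function

set_option linter.unusedSectionVars false

namespace Pool.Agent.Y89.TW

noncomputable section

open Pool.Agent.W544.PG (HS HW mC cspan cx)
open Pool.Agent.Y89.KS
open Pool.Agent.Y89.TS
open Pool.Agent.Y89.TX (Cen)

section
variable {n w k : ℕ} {V : HS n} {W : HW w} {Γ : Fin n → Matrix (Fin w) (Fin w) ℚ}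
  {c : ℚ} {B : ∀ k : ℕ, Submodule ℚ ((Fin k → Fin w) → ℚ)}

/-- `X` commutes with the endomorphisms of `K` -/
def CmD (W : HW w) (X : Matrix (Fin w) (Fin w) ℂ) : Prop :=
  ∀ D : Matrix (Fin w) (Fin w) ℚ, mC D * W.y = W.y * mC D → X * mC D = mC D * X

/-- the class `f` is exceptional -/
def Exc (V : HS n) (W : HW w) (Γ : Fin n → Matrix (Fin w) (Fin w) ℚ) (c : ℚ) {m : ℕ}
    (f : (Fin m → Fin w) → ℚ) : Prop :=
  (n % 4 = 1 ∧ ∃ X, CmD W X ∧ Xᵀ * mC W.E + mC W.E * X = 0 ∧ der X (cx f) ≠ 0) ∨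
  (n % 4 = 3 ∧ ∃ Z i, (∀ j, Z * mC (Γ j) = mC (Γ j) * Z) ∧ (∀ j, CmD W (Z * mC (Γ j))) ∧
    der (Z * mC (Γ i)) (cx f) ≠ 0) ∨
  (n % 4 = 0 ∧ ∃ Z x, (∀ σ : ℂ ≃+* ℂ, Z * W.y.map σ = W.y.map σ * Z) ∧ CmD W Z ∧
    xᵀ * mC V.Q + mC V.Q * x = 0 ∧ der (Z * sp V Γ c x) (cx f) ≠ 0) ∨
  (n % 4 = 2 ∧ m = 4 ∧ ∃ Z, Cen W Z ∧ der Z (cx f) ≠ 0)

/-- **Zero-one law, every rank.** -/
theorem zol_all (hwt : S_wt4) (hV : (V.x * V.x).trace = 2) (hS : V.Scalar) (h5 : 5 ≤ n)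
    (h : Cliff V W Γ c) (hB : CyclesW W B) (hH : ∀ k : ℕ, ∀ t ∈ B k, HodgeW W t)
    {m : ℕ} {f : (Fin m → Fin w) → ℚ} (hf : f ∈ B m) (hex : Exc V W Γ c f)
    {t : (Fin k → Fin w) → ℚ} (ht : HodgeW W t) : t ∈ B k := by
  obtain ⟨U, U', hU, hUU, hU'U⟩ := exists_onb V h.ne
  rcases hex with ⟨h1, X, hX, hX', hXf⟩ | ⟨h3, Z, i, hZ, hD, hne⟩ |
    ⟨h0, Z, x, hZ, hD, hx, hne⟩ | ⟨h2, rfl, Z, hZ, hne⟩
  · exact zol hV hS h1 h hB hH hf hX hX' hXf ht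
  · refine mainE hV h hB ?_ ht
    refine theta_mem tT0R Pool.Agent.Y259.TS.t_weil
      (Pool.Agent.Y165.TS.t_theta Pool.Agent.Y259.TS.t_mono) h hB hH ?_ hU hUU
      (fun i j hij => ga_mem hV hS h hH hU hij)
      (spin3 hV hS h hB hH hU hUU h3 (by omega) hf hZ hD hne)
    exact Nat.odd_iff.2 (by omega)
  · refine mainE hV h hB ?_ ht
    exact theta_mem_even hwt hV hS h hB hH (Nat.even_iff.2 (by omega)) (by omega) hU hUU hU'U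
      (spin0 hV hS h hB hH hU hUU h0 (by omega) hf hZ hD hx hne) (fun h2 => by omega)
  · refine mainE hV h hB ?_ ht
    obtain ⟨h6, h7⟩ := spin2 hV hS h hB hH hU hUU h2 (by omega) hf hZ hne
    exact theta_mem_even hwt hV hS h hB hH (Nat.even_iff.2 (by omega)) (by omega) hU hUU hU'U
      h7 (fun _ => ⟨f, hf, h6⟩)

end

end

end Pool.Agent.Y89.TW
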