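import Pool.Agent.Y89.TW.Alt

/-!
# Zero-one law, every rank: the class `Θ` is invariant
-/

open Matrix Finset Function

set_option linter.unusedSectionVars false

namespace Pool.Agent.Y89.TW

noncomputable section

open Pool.Agent.W544.PG (HS HW mC cspan cx)
open Pool.Agent.Y89.KS
open Pool.Agent.Y89.TS
open Pool.Agent.Y89.TU (gm gm_U sp_span skew_g0 Sym SP IS IS_cycles tri_IS)
open Pool.Agent.Y89.TX (vol isMon vol_comm vol_dg Cen InD_of_y vol_anti half)
open Pool.Agent.Y761.TS (act_act act_one actL)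

section
variable {n w k : ℕ} {V : HS n} {W : HW w} {Γ : Fin n → Matrix (Fin w) (Fin w) ℚ}
  {c : ℚ} {U U' : Matrix (Fin n) (Fin n) ℂ} {B : ∀ k : ℕ, Submodule ℚ ((Fin k → Fin w) → ℚ)}

/-- restriction of an invariant to `W` -/
theorem extW_inv {ρ : Matrix (Fin n) (Fin n) ℂ} {s : Matrix (Fin w) (Fin w) ℂ}
    {f : (Fin k → Fin w) → ℚ}
    (h : act (fromBlocks ρ 0 0 s)ᵀ (cx (extW n f)) = cx (extW n f)) : act sᵀ (cx f) = cx f := by
  funext I
  have h1 := congrFun h (fun t => Sum.inr (I t))
  have h2 : cx (extW n f) (fun t => Sum.inr (I t)) = cx f I := by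
    unfold cx
    rw [extW_inr]
  rw [h2] at h1
  rw [← h1]
  unfold act
  refine Fintype.sum_of_injective (fun (J : Fin k → Fin w) (t : Fin k) =>
    (Sum.inr (J t) : Fin n ⊕ Fin w)) ?_ _ _ ?_ ?_
  · intro J J' hJ
    funext t
    have := congrFun hJ t
    exact Sum.inr_injective this
  · intro J hJ
    have h3 : ∃ t a, J t = Sum.inl a := by
      by_contra h4
      push Not at h4
      apply hJ
      have h5 : ∀ t, ∃ b, J t = Sum.inr b := by
        intro t
        rcases h6 : J t with a | b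
        · exact absurd h6 (h4 t a)
        · exact ⟨b, rfl⟩
      choose K hK using h5
      exact ⟨K, (funext hK).symm⟩
    obtain ⟨t, a, hta⟩ := h3
    unfold cx
    rw [extW_inl f hta]
    simp
  · intro J
    unfold cx
    rw [extW_inr]
    rfl

/-- an isometry of `W` which commutes with the endomorphisms and acts on the generators by an
orthogonal matrix fixes the Hodge classes -/
theorem fix_hodge (hV : (V.x * V.x).trace = 2) (hS : V.Scalar) (h : Cliff V W Γ c)
    (hU : Uᵀ * ((c : ℂ) • mC V.Q) * U = 1) (hUU : U * U' = 1) (hU'U : U' * U = 1)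
    {s s' : Matrix (Fin w) (Fin w) ℂ} (s1 : s * s' = 1) (s2 : s' * s = 1)
    (sE : sᵀ * mC W.E = mC W.E * s')
    (sD : ∀ D : Matrix (Fin w) (Fin w) ℚ, mC D * W.y = W.y * mC D → s * mC D = mC D * s)
    {r : Matrix (Fin n) (Fin n) ℂ} (hr : r * rᵀ = 1)
    (hs : ∀ i, s * ga Γ U i * s' = ∑ j, r j i • ga Γ U j)
    {f : (Fin k → Fin w) → ℚ} (hf : HodgeW W f) : act sᵀ (cx f) = cx f := by
  have hr' : rᵀ * r = 1 := mul_eq_one_comm.1 hr
  have hUt : U * Uᵀ * ((c : ℂ) • mC V.Q) = 1 := by
    have h1 : U * (Uᵀ * ((c : ℂ) • mC V.Q)) = 1 := mul_eq_one_comm.1 hU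
    rw [Matrix.mul_assoc]
    exact h1
  have hU' : U' = Uᵀ * ((c : ℂ) • mC V.Q) := by
    calc U' = (Uᵀ * ((c : ℂ) • mC V.Q) * U) * U' := by rw [hU, Matrix.one_mul]
      _ = Uᵀ * ((c : ℂ) • mC V.Q) * (U * U') := by simp only [Matrix.mul_assoc]
      _ = _ := by rw [hUU, Matrix.mul_one]
  -- the inverse form
  have hQi : (mC V.Q)⁻¹ = (c : ℂ) • (U * Uᵀ) := by
    apply Matrix.inv_eq_left_inv
    rw [Matrix.smul_mul, ← Matrix.mul_smul]
    exact hUt
  refine extW_inv (n := n) (ρ := U * r * U') ?_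
  have hSP : SP V W Γ (fromBlocks (U * r * U') 0 0 s) := by
    refine ⟨U * r * U', U * rᵀ * U', s, s', rfl, ?_, ?_, s1, s2, ?_, sE, ?_, sD, one_mul 1⟩
    · calc U * r * U' * (U * rᵀ * U') = U * r * (U' * U) * rᵀ * U' := by
            simp only [Matrix.mul_assoc]
        _ = U * (r * rᵀ) * U' := by rw [hU'U, Matrix.mul_one]; simp only [Matrix.mul_assoc]
        _ = 1 := by rw [hr, Matrix.mul_one, hUU]
    · calc U * rᵀ * U' * (U * r * U') = U * rᵀ * (U' * U) * r * U' := by
            simp only [Matrix.mul_assoc]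
        _ = U * (rᵀ * r) * U' := by rw [hU'U, Matrix.mul_one]; simp only [Matrix.mul_assoc]
        _ = 1 := by rw [hr', Matrix.mul_one, hUU]
    · rw [hQi, Matrix.mul_smul, Matrix.smul_mul]
      congr 1
      have e1 : Uᵀ * U'ᵀ = 1 := by rw [← transpose_mul, hU'U, transpose_one]
      calc U * rᵀ * U' * (U * Uᵀ) * (U * rᵀ * U')ᵀ
          = U * rᵀ * (U' * U) * (Uᵀ * U'ᵀ) * (r * Uᵀ) := by
            simp only [transpose_mul, transpose_transpose, Matrix.mul_assoc]
        _ = U * (rᵀ * r) * Uᵀ := by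
            rw [hU'U, e1, Matrix.mul_one, Matrix.mul_one]
            simp only [Matrix.mul_assoc]
        _ = U * Uᵀ := by rw [hr', Matrix.mul_one]
    · intro v
      have h1 : v = U *ᵥ (U' *ᵥ v) := by rw [Matrix.mulVec_mulVec, hUU, Matrix.one_mulVec]
      have h2 : (U * r * U') *ᵥ v = U *ᵥ (r *ᵥ (U' *ᵥ v)) := by
        rw [Matrix.mulVec_mulVec, Matrix.mulVec_mulVec, Matrix.mul_assoc]
      rw [one_smul, h2, gm_U]
      conv_lhs => rw [h1, gm_U]
      rw [Finset.mul_sum, Finset.sum_mul]
      have h3 : ∀ j, s * ((U' *ᵥ v) j • ga Γ U j) * s' =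
          ∑ l, ((U' *ᵥ v) j * r l j) • ga Γ U l := by
        intro j
        rw [Matrix.mul_smul, Matrix.smul_mul, hs, Finset.smul_sum]
        simp only [smul_smul]
      simp only [h3]
      rw [Finset.sum_comm]
      refine Finset.sum_congr rfl fun l _ => ?_
      rw [← Finset.sum_smul]
      congr 1
      rw [Matrix.mulVec, dotProduct]
      exact Finset.sum_congr rfl fun i _ => mul_comm _ _
  have h1 : extW n f ∈ IS (SP V W Γ) k :=
    mainA hV (IS_cycles hV hS h) h (tri_IS h) (hodge_ext f hf)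
  exact h1 _ hSP

/-- `Θ` is invariant under operators which act on the generators by an orthogonal matrix, up to
sign -/
theorem theta_fix (h : Cliff V W Γ c) (hU : Uᵀ * ((c : ℂ) • mC V.Q) * U = 1) (hUU : U * U' = 1)
    {s s' : Matrix (Fin w) (Fin w) ℂ} (sE : s'ᵀ * mC W.E = mC W.E * s)
    {r : Matrix (Fin n) (Fin n) ℂ} (hr : r * rᵀ = 1) {α : ℂ} (hα : α * α = 1)
    (hs : ∀ i, s * ga Γ U i * s' = α • ∑ j, r j i • ga Γ U j) :
    act s'ᵀ (cx (theta V W Γ)) = cx (theta V W Γ) := by
  rw [theta_ga h hU hUU, bil4]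
  have h7 : ∀ a, s'ᵀ * (mC W.E * ga Γ U a) * s' = α • ∑ j, r j a • (mC W.E * ga Γ U j) := by
    intro a
    rw [← Matrix.mul_assoc, sE, Matrix.mul_assoc, Matrix.mul_assoc, ← Matrix.mul_assoc s, hs,
      Matrix.mul_smul, Finset.mul_sum]
    simp only [Matrix.mul_smul]
  simp only [Matrix.mul_smul, Matrix.smul_mul, h7]
  funext J
  simp only [Matrix.smul_apply, Matrix.sum_apply, smul_eq_mul]
  have h8 : ∀ i j, ∑ a, r i a * r j a = if i = j then 1 else 0 := by
    intro i j
    have := congrFun (congrFun hr i) j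
    rw [Matrix.mul_apply, Matrix.one_apply] at this
    exact this
  have h9 : ∀ a, (c : ℂ) * (α * ∑ j, r j a * (mC W.E * ga Γ U j) (J 0) (J 1)) *
      (α * ∑ j, r j a * (mC W.E * ga Γ U j) (J 2) (J 3)) =
      ∑ i, ∑ j, (c : ℂ) * (r i a * r j a) * ((mC W.E * ga Γ U i) (J 0) (J 1) *
        (mC W.E * ga Γ U j) (J 2) (J 3)) := by
    intro a
    have e1 : ∀ A B : ℂ, (c : ℂ) * (α * A) * (α * B) = (c : ℂ) * (A * B) := by
      intro A B
      linear_combination (c : ℂ) * A * B * hα
    rw [e1, Finset.sum_mul_sum, Finset.mul_sum]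
    refine Finset.sum_congr rfl fun i _ => ?_
    rw [Finset.mul_sum]
    refine Finset.sum_congr rfl fun j _ => ?_
    ring
  simp only [h9]
  rw [Finset.sum_comm]
  refine Finset.sum_congr rfl fun i _ => ?_
  rw [Finset.sum_comm]
  rw [Finset.sum_eq_single i]
  · rw [← Finset.sum_mul, ← Finset.mul_sum, h8, if_pos rfl]
    ring
  · intro j _ hji
    rw [← Finset.sum_mul, ← Finset.mul_sum, h8, if_neg (Ne.symm hji)]
    ring
  · intro hi
    exact absurd (Finset.mem_univ _) hi

/-- the class `Θ` is invariant under the symmetries of the system, even rank -/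
theorem theta_inv_even (hwt : S_wt4) (hV : (V.x * V.x).trace = 2) (hS : V.Scalar)
    (h : Cliff V W Γ c) (hB : CyclesW W B) (hH : ∀ k : ℕ, ∀ t ∈ B k, HodgeW W t)
    (hn2 : Even n) (hn4 : 4 ≤ n)
    (hU : Uᵀ * ((c : ℂ) • mC V.Q) * U = 1) (hUU : U * U' = 1) (hU'U : U' * U = 1)
    (hL : ∀ a ∈ LB B, a ∈ Submodule.span ℂ (prs (ga Γ U)))
    (h42 : n % 4 = 2 → ∃ f : (Fin 4 → Fin w) → ℚ, f ∈ B 4 ∧ der (vol Γ U) (cx f) ≠ 0)
    {g : Matrix (Fin w) (Fin w) ℂ} (hg : ∀ (l : ℕ), ∀ x ∈ cspan (B l), act gᵀ x = x) :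
    act gᵀ (cx (theta V W Γ)) = cx (theta V W Γ) := by
  have hγ := ga_clf h hU
  have hE : gᵀ * mC W.E * g = mC W.E := by
    have h1 := hg 2 _ (E_span hB)
    rw [act_bil] at h1
    exact bil_inj h1
  obtain ⟨g', hg'⟩ : ∃ g', g' = (mC W.E)⁻¹ * gᵀ * mC W.E := ⟨_, rfl⟩
  have h1 : g' * g = 1 := by
    rw [hg', Matrix.mul_assoc, Matrix.mul_assoc, ← Matrix.mul_assoc gᵀ, hE, Einv']
  have h2 : g * g' = 1 := mul_eq_one_comm.1 h1
  have hEg : gᵀ * mC W.E = mC W.E * g' := by
    rw [hg', Matrix.mul_assoc, ← Matrix.mul_assoc (mC W.E), Einv, Matrix.one_mul]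
  have hEg' : g'ᵀ * mC W.E = mC W.E * g := by
    calc g'ᵀ * mC W.E = g'ᵀ * (gᵀ * mC W.E * g) := by rw [hE]
      _ = (g * g')ᵀ * mC W.E * g := by rw [transpose_mul]; simp only [Matrix.mul_assoc]
      _ = mC W.E * g := by rw [h2, transpose_one, Matrix.one_mul]
  have hdσ : ∀ d : Matrix (Fin w) (Fin w) ℂ, (∀ σ : ℂ ≃+* ℂ, d * W.y.map σ = W.y.map σ * d) →
      g * d = d * g := by
    intro d hd
    have h3 := hg 2 _ (lef_span hB hd)
    rw [act_bil] at h3
    have h4 := bil_inj h3
    rw [← Matrix.mul_assoc, hEg, Matrix.mul_assoc, Matrix.mul_assoc] at h4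
    have h5 := E_cancel W h4
    calc g * d = g * (g' * (d * g)) := by rw [h5]
      _ = d * g := by rw [← Matrix.mul_assoc, h2, Matrix.one_mul]
  have hd : ∀ d, InD (ga Γ U) d → g * d = d * g :=
    fun d hd => hdσ d (inD_DD h hU hUU hd)
  have hgD : ∀ D : Matrix (Fin w) (Fin w) ℚ, mC D * W.y = W.y * mC D → g * mC D = mC D * g := by
    intro D hD
    refine hdσ _ fun σ => ?_
    have h1 := congrArg (fun M : Matrix (Fin w) (Fin w) ℂ => M.map σ) hD
    simp only [mul_map', mC_map'] at h1
    exact h1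
  have hN : ∀ i j, i ≠ j → g * (ga Γ U i * ga Γ U j) * g' ∈
      Submodule.span ℂ (Pool.Agent.Y89.TX.prs (ga Γ U)) := by
    intro i j hij
    apply hL
    intro k t ht
    set Y := ga Γ U i * ga Γ U j with hY
    have h3 : act gᵀ (der (g * Y * g') (cx t)) = 0 := by
      rw [act_der g (g * Y * g') Y (by rw [Matrix.mul_assoc, h1, Matrix.mul_one]) (cx t),
        hg k _ (Submodule.subset_span ⟨t, ht, rfl⟩)]
      exact ga_mem hV hS h hH hU hij k t ht
    have h4 := congrArg (act g'ᵀ) h3
    rw [act_act, ← Matrix.transpose_mul, h2, Matrix.transpose_one, act_one] at h4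
    rw [h4]
    exact map_zero (actL g'ᵀ k)
  obtain ⟨r, α, β, hr, hαβ, hrel⟩ := Pool.Agent.Y430.TX.t_norme (Fin w) n (ga Γ U) hγ hn2 hn4 g g'
    h2 h1 hd hN
  obtain ⟨hv1, hv2⟩ := vol_dg hn2 hn4 hV hS h hU
  have h0 : (1 : Matrix (Fin w) (Fin w) ℂ) ≠ 0 := by
    intro h0
    have h3 := congrFun (congrFun h0 ⟨0, h.pos⟩) ⟨0, h.pos⟩
    simp at h3
  have hαβ'' : α * α - (-1 : ℂ) ^ (n / 2) * (β * β) = 1 := by
    have h5 : (α • (1 : Matrix (Fin w) (Fin w) ℂ) + β • vol Γ U) * (α • 1 - β • vol Γ U) =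
        (α * α) • (1 : Matrix (Fin w) (Fin w) ℂ) - (β * β) • (vol Γ U * vol Γ U) := by
      simp only [add_mul, mul_sub, Matrix.smul_mul, Matrix.mul_smul, one_mul, mul_one, smul_smul]
      rw [mul_comm β α]
      abel
    rw [h5, hv2, smul_smul, ← sub_smul] at hαβ
    have h6 : (α * α - (-1 : ℂ) ^ (n / 2) * (β * β)) • (1 : Matrix (Fin w) (Fin w) ℂ) =
        (1 : ℂ) • 1 := by
      rw [one_smul, ← hαβ]
      congr 1
      ring
    have h7 := sub_eq_zero.2 h6
    rw [← sub_smul] at h7
    exact sub_eq_zero.1 ((smul_eq_zero.1 h7).resolve_right h0)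
  -- the second factor is a sign
  have key : α * α = 1 ∧ β = 0 := by
    by_cases h4 : n % 4 = 2
    · have h8 : Odd (n / 2) := by
        rw [Nat.odd_iff]
        omega
      rw [h8.neg_one_pow] at hαβ'' hv1 hv2
      rw [neg_one_smul] at hv1 hv2
      obtain ⟨f, hf, hfv⟩ := h42 h4
      obtain ⟨α', β', h5, h6, h7⟩ := half α β (by linear_combination hαβ'')
      set z : Matrix (Fin w) (Fin w) ℂ := α' • 1 + β' • vol Γ U with hz
      set z' : Matrix (Fin w) (Fin w) ℂ := α' • 1 - β' • vol Γ U with hz'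
      have hmul : ∀ a b a' b' : ℂ, (a • (1 : Matrix (Fin w) (Fin w) ℂ) + b • vol Γ U) *
          (a' • 1 + b' • vol Γ U) = (a * a' - b * b') • 1 + (a * b' + b * a') • vol Γ U := by
        intro a b a' b'
        have e1 : vol Γ U * vol Γ U = -1 := hv2
        simp only [add_mul, mul_add, Matrix.smul_mul, Matrix.mul_smul, one_mul, mul_one, smul_smul]
        rw [e1]
        module
      have hneg : z' = α' • 1 + (-β') • vol Γ U := by rw [hz', neg_smul, sub_eq_add_neg]
      have zz : z * z' = 1 := by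
        rw [hneg, hz, hmul]
        have e1 : α' * α' - β' * -β' = 1 := by linear_combination h5
        have e2 : α' * -β' + β' * α' = 0 := by ring
        rw [e1, e2, one_smul, zero_smul, add_zero]
      have zz' : z' * z = 1 := mul_eq_one_comm.1 zz
      have zC : z * z = α • 1 + β • vol Γ U := by
        rw [hz, hmul, h6]
        congr 2
        linear_combination h7
      have hgv : g * vol Γ U = vol Γ U * g := hd _ fun i j => vol_comm hn2 hγ i j
      have hgz : ∀ a b : ℂ, g * (a • 1 + b • vol Γ U) = (a • 1 + b • vol Γ U) * g := by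
        intro a b
        rw [Matrix.mul_add, Matrix.add_mul, Matrix.mul_smul, Matrix.mul_smul, Matrix.smul_mul,
          Matrix.smul_mul, hgv, Matrix.mul_one, Matrix.one_mul]
      have hgz1 : g * z = z * g := hgz _ _
      have hgz2 : g * z' = z' * g := by rw [hneg]; exact hgz _ _
      have hzγ : ∀ i, z * ga Γ U i = ga Γ U i * z' := by
        intro i
        have e1 := vol_anti hn2 hγ i
        rw [hz, hz', Matrix.add_mul, Matrix.mul_sub, Matrix.smul_mul, Matrix.smul_mul,
          Matrix.mul_smul, Matrix.mul_smul, Matrix.one_mul, Matrix.mul_one, e1, smul_neg,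
          sub_neg_eq_add]
      have hvD : ∀ D : Matrix (Fin w) (Fin w) ℚ, mC D * W.y = W.y * mC D →
          vol Γ U * mC D = mC D * vol Γ U :=
        (Pool.Agent.Y89.TX.vol_cen h4 (by omega) hV hS h hU hUU).2.1
      have hvE : (vol Γ U)ᵀ * mC W.E = -(mC W.E * vol Γ U) :=
        eq_neg_of_add_eq_zero_left
          (Pool.Agent.Y89.TX.vol_cen h4 (by omega) hV hS h hU hUU).2.2
      have hzE : zᵀ * mC W.E = mC W.E * z' := by
        rw [hz, hz', transpose_add, transpose_smul, transpose_smul, transpose_one, Matrix.add_mul,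
          Matrix.smul_mul, Matrix.smul_mul, hvE, Matrix.mul_sub, Matrix.mul_smul, Matrix.mul_smul,
          Matrix.one_mul, Matrix.mul_one, smul_neg, sub_eq_add_neg]
      have hfix : act (g * z)ᵀ (cx f) = cx f := by
        refine fix_hodge hV hS h hU hUU hU'U (s := g * z) (s' := z' * g') ?_ ?_ ?_ ?_ hr ?_
          (hH 4 f hf)
        · calc g * z * (z' * g') = g * (z * z') * g' := by simp only [Matrix.mul_assoc]
            _ = 1 := by rw [zz, Matrix.mul_one, h2]
        · calc z' * g' * (g * z) = z' * (g' * g) * z := by simp only [Matrix.mul_assoc]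
            _ = 1 := by rw [h1, Matrix.mul_one, zz']
        · rw [transpose_mul, Matrix.mul_assoc, hEg, ← Matrix.mul_assoc, hzE, Matrix.mul_assoc]
        · intro D hD
          have e1 : z * mC D = mC D * z := by
            rw [hz, Matrix.add_mul, Matrix.mul_add, Matrix.smul_mul, Matrix.smul_mul,
              Matrix.mul_smul, Matrix.mul_smul, Matrix.one_mul, Matrix.mul_one, hvD D hD]
          rw [Matrix.mul_assoc, e1, ← Matrix.mul_assoc, hgD D hD, Matrix.mul_assoc]
        · intro i
          calc g * z * ga Γ U i * (z' * g') = g * (z * ga Γ U i) * z' * g' := by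
                simp only [Matrix.mul_assoc]
            _ = g * ga Γ U i * (z' * (z' * g')) := by
                rw [hzγ]
                simp only [Matrix.mul_assoc]
            _ = g * ga Γ U i * (g' * (z' * z')) := by
                congr 1
                have e1 : g' * z' = z' * g' := by
                  calc g' * z' = g' * (z' * g) * g' := by
                        rw [Matrix.mul_assoc, Matrix.mul_assoc, h2, Matrix.mul_one]
                    _ = g' * (g * z') * g' := by rw [hgz2]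
                    _ = z' * g' := by
                        rw [← Matrix.mul_assoc, h1, Matrix.one_mul]
                rw [← e1, ← Matrix.mul_assoc, ← e1, Matrix.mul_assoc]
            _ = (g * ga Γ U i * g') * (z' * z') := by simp only [Matrix.mul_assoc]
            _ = (∑ j, r j i • ga Γ U j) * ((z * z) * (z' * z')) := by
                rw [hrel, zC, Matrix.mul_assoc]
            _ = ∑ j, r j i • ga Γ U j := by
                have e1 : (z * z) * (z' * z') = 1 := by
                  calc (z * z) * (z' * z') = z * (z * z') * z' := by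
                        simp only [Matrix.mul_assoc]
                    _ = 1 := by rw [zz, Matrix.mul_one, zz]
                rw [e1, Matrix.mul_one]
      have hzf : act zᵀ (cx f) = cx f := by
        rw [transpose_mul, ← act_act, hg 4 _ (Submodule.subset_span ⟨f, hf, rfl⟩)] at hfix
        exact hfix
      have h9 := hwt (Fin w) (vol Γ U) hv2 α' β' h5 (cx f) hzf hfv
      have h10 : (α' + Complex.I * β') ^ 2 = α + Complex.I * β := by
        have e1 : Complex.I * Complex.I = -1 := Complex.I_mul_I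
        linear_combination h6 + Complex.I * h7 + β' * β' * e1
      have h11 : (α + Complex.I * β) * (α + Complex.I * β) = 1 := by
        rw [← h10]
        linear_combination h9
      have h12 : (α + Complex.I * β) * (α - Complex.I * β) = 1 := by
        have e1 : Complex.I * Complex.I = -1 := Complex.I_mul_I
        linear_combination hαβ'' - β * β * e1
      have h13 : (α + Complex.I * β) * (2 * (Complex.I * β)) = 0 := by
        linear_combination h11 - h12
      have h14 : α + Complex.I * β ≠ 0 := by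
        intro h15
        rw [h15, zero_mul] at h11
        exact zero_ne_one h11
      have h15 : β = 0 := by
        have h16 := (mul_eq_zero.1 h13).resolve_left h14
        have h17 := (mul_eq_zero.1 h16).resolve_left two_ne_zero
        exact (mul_eq_zero.1 h17).resolve_left Complex.I_ne_zero
      refine ⟨?_, h15⟩
      rw [h15] at hαβ''
      linear_combination hαβ''
    · have h0' : n % 4 = 0 := by
        obtain ⟨m, hm⟩ := hn2
        omega
      have hdd : dgL W g = g' := by
        change (mC W.E)⁻¹ * gᵀ * mC W.E = g'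
        exact hg'.symm
      have h9 := Pool.Agent.Y195.TX.t_norm0 (Fin w) n (ga Γ U) hγ h0' hn4 g g' h2 h1 hd (dgL W)
        (dg_mul W) (fun j l hjl => ga_dg hV hS h hU hjl) hdd r α β hr hrel
      have hβ : β = 0 := by
        rcases smul_eq_zero.1 h9 with h10 | h10
        · exact h10
        · exfalso
          have h11 : vol Γ U * vol Γ U = 0 := by
            change mono (ga Γ U) univ * mono (ga Γ U) univ = 0
            rw [h10, Matrix.mul_zero]
          rw [hv2] at h11
          exact (smul_eq_zero.1 h11).elim (fun h12 => pow_ne_zero _ (by norm_num) h12) h0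
      refine ⟨?_, hβ⟩
      rw [hβ] at hαβ''
      linear_combination hαβ''
  obtain ⟨hα, hβ⟩ := key
  have h3 := theta_fix (s := g) (s' := g') h hU hUU hEg' hr hα fun i => by
    rw [hrel, hβ, zero_smul, add_zero, Matrix.mul_smul, Matrix.mul_one]
  have h4 := congrArg (act gᵀ) h3
  rw [act_act, ← Matrix.transpose_mul, h1, Matrix.transpose_one, act_one] at h4
  exact h4.symm

/-- the class `Θ` is in the system, even rank -/
theorem theta_mem_even (hwt : S_wt4) (hV : (V.x * V.x).trace = 2) (hS : V.Scalar)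
    (h : Cliff V W Γ c) (hB : CyclesW W B) (hH : ∀ k : ℕ, ∀ t ∈ B k, HodgeW W t)
    (hn2 : Even n) (hn4 : 4 ≤ n)
    (hU : Uᵀ * ((c : ℂ) • mC V.Q) * U = 1) (hUU : U * U' = 1) (hU'U : U' * U = 1)
    (hL : ∀ a ∈ LB B, a ∈ Submodule.span ℂ (prs (ga Γ U)))
    (h42 : n % 4 = 2 → ∃ f : (Fin 4 → Fin w) → ℚ, f ∈ B 4 ∧ der (vol Γ U) (cx f) ≠ 0) :
    theta V W Γ ∈ B 4 := by
  apply cspan_dsc
  obtain ⟨S, hS', hS0⟩ := exists_S W
  refine tT0R (Fin w) (mC W.E)⁻¹ (-(JW W)) S (fun k => cspan (B k)) (sysB hB) hS0 ?_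
    (fun k f hf => conj_span hf)
    (fun k f hf => weil_span Pool.Agent.Y259.TS.t_weil hH hf) 4 _ ?_
  · rw [hS', rc_GR, HW_inv]
  · intro g _ hg
    exact theta_inv_even hwt hV hS h hB hH hn2 hn4 hU hUU hU'U hL h42 hg

end

end

end Pool.Agent.Y89.TW
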